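import Mathlib
import Pool.Agent.Helper69.BQ.St.S
import Pool.Agent.Helper69.BQ.St.M3

/-!
# Project BQ, piece S3: the conditions `Trip`
-/

namespace Pool.Agent.Helper33.BQ

open Pool.Agent.Helper69.BQ
open Module NumberField Pool.Agent.Helper25.Biq Cert

lemma z2_add_self (x : ZMod 2) : x + x = 0 := by
  revert x
  decide

lemma dot_zero (N : ℕ) (x : ℕ → ZMod 2) : dot N x 0 = 0 := by
  unfold dot bitz
  simp

lemma dot_two_pow {N j : ℕ} (x : ℕ → ZMod 2) (h : j < N) : dot N x (2 ^ j) = x j := by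
  unfold dot
  rw [Finset.sum_eq_single j]
  · unfold bitz
    simp [Nat.testBit_two_pow_self]
  · intro i _ hij
    unfold bitz
    simp [Ne.symm hij]
  · intro hj
    exact absurd (Finset.mem_range.mpr h) hj

lemma dot_bt {N j : ℕ} (x : ℕ → ZMod 2) (h : j < N) (b : Bool) :
    dot N x (bt b j) = (if b then 1 else 0) * x j := by
  unfold bt
  cases b
  · simp [dot_zero]
  · simp [dot_two_pow x h]

lemma xx_valM {ps : List ℕ} (hps : ∀ p ∈ ps, p.Prime ∧ p ≠ 2 ∧ p < 2 ^ 30) (hnd : ps.Nodup)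
    {p : ℕ} (hp : p ∈ ps) (m : ℕ) :
    xx p ((valM ps m : ℤ) : ℚ) =
      if par (ps.length + 2) (chiM ps p &&& m) then 1 else 0 := by
  have hps' : ∀ p ∈ ps, p.Prime ∧ p ≠ 2 := fun p hp => ⟨(hps p hp).1, (hps p hp).2.1⟩
  rw [xx_eq_dot hps hnd hp (supp_valM hps' m), ← dot_bitz]
  unfold dot
  refine Finset.sum_congr rfl ?_
  intro i hi
  rw [co_valM hps' hnd m i (Finset.mem_range.mp hi)]

lemma mem_of_dvd_prod {p : ℕ} (hp : p.Prime) {l : List ℕ} (hl : ∀ q ∈ l, q.Prime)
    (h : (p : ℤ) ∣ ((l.prod : ℕ) : ℤ)) : p ∈ l := by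
  have h1 : p ∣ l.prod := by exact_mod_cast h
  obtain ⟨q, hq, hpq⟩ := (Nat.Prime.prime hp).dvd_prod_iff.mp h1
  have := (Nat.prime_dvd_prime_iff_eq hp (hl q hq)).mp hpq
  rw [this]
  exact hq

lemma trip_consP {c : Cert} (h1 : c.ok1 = true) (h2 : c.ok2 = true) {c1 c2 c3 : ℚ}
    (ht : Trip c.g12 c.g13 c.g23 c1 c2 c3) : SuppOn c.ps c1 ∧ SuppOn c.ps c2 ∧
      ∀ a ∈ c.consP, dot c.N (co c.ps c1) a.1 + dot c.N (co c.ps c2) a.2 = 0 := by
  obtain ⟨hps, hnd⟩ := ok1_primes h1
  obtain ⟨hA, -, -⟩ := ok1_arith h1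
  have hchi : c.chi = c.ps.map (chiM c.ps) := by
    unfold Cert.ok2 at h2
    exact of_decide_eq_true h2
  have hP12 : ∀ q ∈ c.P12, q.Prime := fun q hq => (hps q (by simp [Cert.ps, hq])).1
  have hP13 : ∀ q ∈ c.P13, q.Prime := fun q hq => (hps q (by simp [Cert.ps, hq])).1
  have hP23 : ∀ q ∈ c.P23, q.Prime := fun q hq => (hps q (by simp [Cert.ps, hq])).1
  have hZ : ∀ {p : ℕ}, p.Prime → Prime (p : ℤ) := fun hp => Nat.prime_iff_prime_int.mp hp
  have m12 : ∀ p : ℕ, p.Prime → (p : ℤ) ∣ c.g12 → p ∈ c.ps := fun p hp h => by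
    have := mem_of_dvd_prod hp hP12 h
    simp [Cert.ps, this]
  have m13 : ∀ p : ℕ, p.Prime → (p : ℤ) ∣ c.g13 → p ∈ c.ps := fun p hp h => by
    have := mem_of_dvd_prod hp hP13 h
    simp [Cert.ps, this]
  have m23 : ∀ p : ℕ, p.Prime → p ≠ 2 → (p : ℤ) ∣ c.g23 → p ∈ c.ps := fun p hp hp2 h => by
    have h3 : (p : ℤ) ∣ ((c.P23.prod : ℕ) : ℤ) := by
      have h4 : (p : ℤ) ∣ (2 : ℤ) * ((c.P23.prod : ℕ) : ℤ) := by
        have : c.g23 = (2 : ℤ) * ((c.P23.prod : ℕ) : ℤ) := by
          unfold Cert.g23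
          push_cast
          ring
        rwa [this] at h
      rcases (hZ hp).dvd_or_dvd h4 with h5 | h5
      · exfalso
        apply hp2
        have : p ∣ 2 := by exact_mod_cast h5
        exact (Nat.prime_dvd_prime_iff_eq hp Nat.prime_two).mp this
      · exact h5
    have := mem_of_dvd_prod hp hP23 h3
    simp [Cert.ps, this]
  have hS1 : SuppOn c.ps c1 := by
    refine ⟨ht.ne1, ?_⟩
    intro p hp hp2 hpn
    refine ht.s1 p hp hp2 ?_
    intro hd
    rcases (hZ hp).dvd_or_dvd hd with h | h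
    · exact hpn (m12 p hp h)
    · exact hpn (m13 p hp h)
  have hS2 : SuppOn c.ps c2 := by
    refine ⟨ht.ne2, ?_⟩
    intro p hp hp2 hpn
    refine ht.s2 p hp hp2 ?_
    intro hd
    rcases (hZ hp).dvd_or_dvd hd with h | h
    · exact hpn (m12 p hp h)
    · exact hpn (m23 p hp hp2 h)
  refine ⟨hS1, hS2, ?_⟩
  obtain ⟨e, he⟩ := ht.prod
  have he0 : e ≠ 0 := by
    rintro rfl
    have : c1 * c2 * c3 ≠ 0 := mul_ne_zero (mul_ne_zero ht.ne1 ht.ne2) ht.ne3
    apply this
    rw [he]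
    simp
  have h12 : c1 * c2 ≠ 0 := mul_ne_zero ht.ne1 ht.ne2
  have hc3 : c3 = c1 * c2 * (e / (c1 * c2)) ^ 2 := by
    have k1 := ht.ne1
    have k2 := ht.ne2
    field_simp
    linear_combination he
  have hf0 : e / (c1 * c2) ≠ 0 := div_ne_zero he0 h12
  have hxx3 : ∀ p : ℕ, p.Prime → p ≠ 2 → xx p c3 = xx p c1 + xx p c2 := by
    intro p hp hp2
    rw [hc3, xx_mul hp hp2 h12 (pow_ne_zero 2 hf0), xx_mul hp hp2 ht.ne1 ht.ne2,
      xx_sq hp hp2 hf0, add_zero]
  have hvv3 : ∀ p : ℕ, p.Prime → vv p c3 = vv p c1 + vv p c2 := by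
    intro p hp
    rw [hc3, vv_mul hp h12 (pow_ne_zero 2 hf0), vv_mul hp ht.ne1 ht.ne2,
      vv_sq hp hf0, add_zero]
  intro a ha
  unfold Cert.consP at ha
  rw [List.mem_flatMap] at ha
  obtain ⟨i, hi, ha⟩ := ha
  rw [List.mem_range] at hi
  have hN : c.N = c.ps.length + 2 := rfl
  have hi' : i < c.ps.length := by omega
  have hiN : i + 2 < c.N := by omega
  have hget : gt c.ps i = c.ps[i] := by
    unfold gt
    exact List.getD_eq_getElem _ _ hi'
  have hmem : gt c.ps i ∈ c.ps := by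
    rw [hget]
    exact List.getElem_mem hi'
  obtain ⟨hp, hp2, -⟩ := hps _ hmem
  have hchii : gt c.chi i = chiM c.ps (gt c.ps i) := by
    rw [hget, hchi]
    unfold gt
    rw [List.getD_eq_getElem _ _ (by simpa using hi')]
    simp
  obtain ⟨d12, d13, d23⟩ := dvd_iff h1 hi'
  obtain ⟨v1, v2, v3⟩ := valM_d (c := c)
  have x1 := xx_valM hps hnd hmem c.d1m
  have x2 := xx_valM hps hnd hmem c.d2m
  have x3 := xx_valM hps hnd hmem c.d3m
  rw [v1, ← hN, ← hchii] at x1
  rw [v2, ← hN, ← hchii] at x2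
  rw [v3, ← hN, ← hchii] at x3
  have y1 : dot c.N (co c.ps c1) (gt c.chi i) = xx (gt c.ps i) c1 := by
    rw [hchii, hN]
    exact (xx_eq_dot hps hnd hmem hS1).symm
  have y2 : dot c.N (co c.ps c2) (gt c.chi i) = xx (gt c.ps i) c2 := by
    rw [hchii, hN]
    exact (xx_eq_dot hps hnd hmem hS2).symm
  have w1 : co c.ps c1 (i + 2) = vv (gt c.ps i) c1 := rfl
  have w2 : co c.ps c2 (i + 2) = vv (gt c.ps i) c2 := rfl
  have hsq := hA.sqf
  have hnosq : ∀ x : ℤ, ((gt c.ps i : ℕ) : ℤ) * ((gt c.ps i : ℕ) : ℤ) ∣ x →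
      ¬ x ∣ c.g12 * c.g13 * c.g23 := by
    intro x hx hx2
    exact (hZ hp).not_isUnit (hsq _ (hx.trans hx2))
  by_cases b12 : c.m12.testBit (i + 2) = true
  · rw [if_pos b12] at ha
    have hd := d12.mpr b12
    have hnd3 : ¬ (((gt c.ps i : ℕ) : ℤ) ∣ c.g13 * c.g23) := by
      intro h
      refine hnosq _ (mul_dvd_mul hd h) ?_
      rw [mul_assoc]
    have l := ht.l12 _ hp hp2 hd
    rw [hxx3 _ hp hp2, x3] at l
    have s := ht.s3 _ hp hp2 hnd3
    rw [hvv3 _ hp] at s
    rw [List.mem_cons, List.mem_singleton] at ha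
    rcases ha with rfl | rfl
    · simp only
      rw [dot_two_pow _ hiN, dot_two_pow _ hiN, w1, w2]
      exact s
    · simp only
      rw [dot_xor, dot_bt _ hiN, y1, y2, w1]
      calc xx (gt c.ps i) c1 + (if par c.N (gt c.chi i &&& c.d3m) = true then 1 else 0) *
            vv (gt c.ps i) c1 + xx (gt c.ps i) c2
          = (xx (gt c.ps i) c1 + xx (gt c.ps i) c2) +
            (if par c.N (gt c.chi i &&& c.d3m) = true then 1 else 0) * vv (gt c.ps i) c1 := by ring
        _ = 0 := by rw [l]; exact z2_add_self _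
  · rw [if_neg b12] at ha
    have hd12 : ¬ (((gt c.ps i : ℕ) : ℤ) ∣ c.g12) := fun h => b12 (d12.mp h)
    by_cases b13 : c.m13.testBit (i + 2) = true
    · rw [if_pos b13] at ha
      have hd := d13.mpr b13
      have hnd3 : ¬ (((gt c.ps i : ℕ) : ℤ) ∣ c.g12 * c.g23) := by
        intro h
        refine hnosq _ (mul_dvd_mul hd h) ?_
        exact dvd_of_eq (by ring)
      have l := ht.l13 _ hp hp2 hd
      rw [x2] at l
      have s := ht.s2 _ hp hp2 hnd3
      rw [List.mem_cons, List.mem_singleton] at ha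
      rcases ha with rfl | rfl
      · simp only
        rw [dot_zero, dot_two_pow _ hiN, w2, s, add_zero]
      · simp only
        rw [dot_bt _ hiN, y2, w1, l]
        exact z2_add_self _
    · rw [if_neg b13] at ha
      have hd13 : ¬ (((gt c.ps i : ℕ) : ℤ) ∣ c.g13) := fun h => b13 (d13.mp h)
      have hd : ((gt c.ps i : ℕ) : ℤ) ∣ c.g23 := by
        have hm := hmem
        unfold Cert.ps at hm
        rw [List.mem_append, List.mem_append] at hm
        rcases hm with hm | hm | hm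
        · exfalso
          apply hd12
          unfold Cert.g12
          exact_mod_cast List.dvd_prod hm
        · exfalso
          apply hd13
          unfold Cert.g13
          exact_mod_cast List.dvd_prod hm
        · unfold Cert.g23
          have := List.dvd_prod hm
          exact_mod_cast Dvd.dvd.mul_left this 2
      have hnd3 : ¬ (((gt c.ps i : ℕ) : ℤ) ∣ c.g12 * c.g13) := by
        intro h
        rcases (hZ hp).dvd_or_dvd h with h | h
        · exact hd12 h
        · exact hd13 h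
      have l := ht.l23 _ hp hp2 hd
      rw [x1] at l
      have s := ht.s1 _ hp hp2 hnd3
      rw [List.mem_cons, List.mem_singleton] at ha
      rcases ha with rfl | rfl
      · simp only
        rw [dot_zero, dot_two_pow _ hiN, w1, s, add_zero]
      · simp only
        rw [dot_bt _ hiN, y1, w2, l]
        exact z2_add_self _

end Pool.Agent.Helper33.BQ
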